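import Mathlib

open MeasureTheory Filter Topology

namespace Pool.Agent.H855Z.Haar

/-- `A` is left Haar null: `A ⊆ B` measurable (Borel) and `μ (g B) = 0` for all `g`, for some
probability measure `μ`. -/
def LeftHaarNull {G : Type} [Group G] [MeasurableSpace G] (A : Set G) : Prop :=
  ∃ B : Set G, MeasurableSet B ∧ A ⊆ B ∧
    ∃ μ : Measure G, IsProbabilityMeasure μ ∧ ∀ g : G, μ ((fun x => g * x) '' B) = 0

/-- `A` is right Haar null: `A ⊆ B` measurable (Borel) and `μ (B g) = 0` for all `g`, for some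
probability measure `μ`. -/
def RightHaarNull {G : Type} [Group G] [MeasurableSpace G] (A : Set G) : Prop :=
  ∃ B : Set G, MeasurableSet B ∧ A ⊆ B ∧
    ∃ μ : Measure G, IsProbabilityMeasure μ ∧ ∀ g : G, μ ((fun x => x * g) '' B) = 0

/-- Solecki's amenability at `1`: for probability measures `μ n` with `1` in their supports there
are probability measures `νs n ≪ μ n` and `ν` with `(ν * νs n) K → ν K` for every compact `K`, where
`(ν * νs n) K = (ν × νs n) {(x, y) | x y ∈ K}`. -/
def AmenableAtOne (G : Type) [Group G] [TopologicalSpace G] [MeasurableSpace G] : Prop :=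
  ∀ μ : ℕ → Measure G, (∀ n, IsProbabilityMeasure (μ n)) → (∀ n, (1 : G) ∈ (μ n).support) →
    ∃ (νs : ℕ → Measure G) (ν : Measure G), (∀ n, IsProbabilityMeasure (νs n)) ∧
      IsProbabilityMeasure ν ∧ (∀ n, νs n ≪ μ n) ∧
      ∀ K : Set G, IsCompact K →
        Tendsto (fun n => (ν.prod (νs n)) {p : G × G | p.1 * p.2 ∈ K}) atTop (𝓝 (ν K))

end Pool.Agent.H855Z.Haar
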