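import Pool.Agent.H855Z.HaarDefs

open MeasureTheory Filter Topology ProbabilityTheory
open scoped ENNReal

namespace Pool.Agent.H855Z.Haar

/-- the infinite dihedral group as affine maps `x ↦ u x + a` of the integers -/
@[ext] structure Dih where
  a : ℤ
  u : ℤˣ
deriving DecidableEq

instance : Group Dih where
  mul x y := ⟨x.a + x.u * y.a, x.u * y.u⟩
  one := ⟨0, 1⟩
  inv x := ⟨-(x.u * x.a), x.u⟩
  mul_assoc x y z := by
    apply Dih.ext
    · change x.a + x.u * y.a + ((x.u * y.u : ℤˣ) : ℤ) * z.a = x.a + x.u * (y.a + y.u * z.a)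
      push_cast; ring
    · exact mul_assoc x.u y.u z.u
  one_mul x := by
    apply Dih.ext
    · change (0 : ℤ) + ((1 : ℤˣ) : ℤ) * x.a = x.a
      simp
    · exact one_mul x.u
  mul_one x := by
    apply Dih.ext
    · change x.a + x.u * (0 : ℤ) = x.a
      simp
    · exact mul_one x.u
  inv_mul_cancel x := by
    apply Dih.ext
    · change -(x.u * x.a) + x.u * x.a = (0 : ℤ)
      ring
    · exact Int.units_mul_self x.u

@[simp] lemma mul_a (x y : Dih) : (x * y).a = x.a + x.u * y.a := rfl
@[simp] lemma mul_u (x y : Dih) : (x * y).u = x.u * y.u := rfl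
@[simp] lemma one_a : (1 : Dih).a = 0 := rfl
@[simp] lemma one_u : (1 : Dih).u = 1 := rfl

instance : Countable Dih :=
  Function.Injective.countable (f := fun x : Dih => (x.a, x.u))
    (fun _ _ h => Dih.ext (congrArg Prod.fst h) (congrArg Prod.snd h))

instance : TopologicalSpace Dih := ⊥
instance : DiscreteTopology Dih := ⟨rfl⟩
instance : MeasurableSpace Dih := ⊤
instance : DiscreteMeasurableSpace Dih := ⟨fun _ => trivial⟩
instance : BorelSpace Dih := ⟨borel_eq_top_of_discrete.symm⟩
instance : IsTopologicalGroup Dih where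
  continuous_mul := continuous_of_discreteTopology
  continuous_inv := continuous_of_discreteTopology

lemma polish : PolishSpace (ℕ → Dih) :=
  { toSecondCountableTopology := inferInstance
    toIsCompletelyMetrizableSpace := inferInstance }

lemma couple (S : Finset Dih) (ψ : Dih → Dih) (hψ : Function.Injective ψ) :
    ∃ φ : Dih → Dih, (uniformOn (S : Set Dih)).map φ = uniformOn (S : Set Dih) ∧
      ∀ x ∈ S, ψ x ∈ S → φ x = ψ x := by
  obtain ⟨g, hg⟩ := Set.MapsTo.exists_equiv_extend_of_card_eq (α := S) (t := S) (by simp)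
    (s := {x : S | ψ x ∈ S}) (f := fun x : S => ψ x) (fun x hx => hx)
    (fun x _ y _ h => Subtype.ext (hψ h))
  refine ⟨fun x => if h : x ∈ S then (g ⟨x, h⟩ : Dih) else x, ?_, ?_⟩
  · ext s hs
    rw [Measure.map_apply (Measurable.of_discrete) hs, uniformOn,
      cond_apply S.measurableSet, cond_apply S.measurableSet]
    congr 1
    rw [Measure.count_apply MeasurableSet.of_discrete,
      Measure.count_apply MeasurableSet.of_discrete]
    congr 1
    rw [← Set.InjOn.encard_image
      (f := fun x => if h : x ∈ S then (g ⟨x, h⟩ : Dih) else x)]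
    · congr 1
      ext y
      constructor
      · rintro ⟨x, ⟨hx, hxs⟩, rfl⟩
        refine ⟨?_, hxs⟩
        have hx' : x ∈ S := hx
        simp only [hx', dif_pos]
        exact (g ⟨x, hx'⟩).2
      · rintro ⟨hy, hys⟩
        have hy' : y ∈ S := hy
        refine ⟨(g.symm ⟨y, hy'⟩ : S), ⟨(g.symm ⟨y, hy'⟩).2, ?_⟩, ?_⟩
        · simp [hys]
        · simp
    · rintro x ⟨hx, -⟩ y ⟨hy, -⟩ h
      have hx' : x ∈ S := hx
      have hy' : y ∈ S := hy
      simp only [hx', hy', dif_pos] at h
      exact congrArg Subtype.val (g.injective (Subtype.ext h))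
  · intro x hx hx'
    simp only [hx, dif_pos]
    exact hg ⟨x, hx⟩ hx'

/-- the box `|a| ≤ N` -/
noncomputable def box (N : ℕ) : Finset Dih :=
  ((Finset.Icc (-(N : ℤ)) N) ×ˢ (Finset.univ : Finset ℤˣ)).image fun p => ⟨p.1, p.2⟩

lemma mem_box {N : ℕ} {x : Dih} : x ∈ box N ↔ -(N : ℤ) ≤ x.a ∧ x.a ≤ N := by
  simp only [box, Finset.mem_image, Finset.mem_product, Finset.mem_Icc, Finset.mem_univ,
    and_true, Prod.exists]
  constructor
  · rintro ⟨a, u, h, rfl⟩
    exact h
  · intro h
    exact ⟨x.a, x.u, h, rfl⟩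

lemma card_box (N : ℕ) : (box N).card = (2 * N + 1) * 2 := by
  rw [box, Finset.card_image_of_injective]
  · simp
    omega
  · intro p q h
    exact Prod.ext (congrArg Dih.a h) (congrArg Dih.u h)

lemma box_mono {M N : ℕ} (h : M ≤ N) : box M ⊆ box N := by
  intro x hx
  rw [mem_box] at hx ⊢
  omega

lemma folner (F : Set Dih) (hF : F.Finite) (ε : ℝ≥0∞) (hε : 0 < ε) :
    ∃ lam : Measure Dih, IsProbabilityMeasure lam ∧ ∀ f ∈ F, ∃ φ : Dih → Dih,
      lam.map φ = lam ∧ lam {x | φ x ≠ x * f} ≤ ε := by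
  obtain ⟨M, hM⟩ : ∃ M : ℕ, ∀ f ∈ F, f.a.natAbs ≤ M := by
    obtain ⟨M, hM⟩ := (hF.image fun f : Dih => f.a.natAbs).bddAbove
    exact ⟨M, fun f hf => hM ⟨f, hf, rfl⟩⟩
  obtain ⟨k, hk⟩ := ENNReal.exists_inv_nat_lt hε.ne'
  set N := k * M with hN
  have hne : (box (N + M) : Set Dih).Nonempty := ⟨1, by
    rw [Finset.mem_coe, mem_box]; simp only [one_a]; omega⟩
  refine ⟨uniformOn (box (N + M) : Set Dih),
    isProbabilityMeasure_uniformOn (Finset.finite_toSet _) hne, fun f hf => ?_⟩
  obtain ⟨φ, hφ, hφ'⟩ := couple (box (N + M)) (fun x => x * f) (mul_left_injective f)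
  refine ⟨φ, hφ, ?_⟩
  have h1 : uniformOn (box (N + M) : Set Dih) {x | φ x ≠ x * f} ≤
      uniformOn (box (N + M) : Set Dih) ((box (N + M) \ box N : Finset Dih) : Set Dih) := by
    rw [← uniformOn_inter_self (Finset.finite_toSet _)]
    apply measure_mono
    rintro x ⟨hx, hx'⟩
    rw [Finset.mem_coe, Finset.mem_sdiff]
    refine ⟨hx, fun hxN => hx' (hφ' x hx ?_)⟩
    rw [mem_box] at hxN ⊢
    have := hM f hf
    simp only [mul_a]
    rcases Int.units_eq_one_or x.u with h | h <;> rw [h] <;> simp <;> omega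
  refine h1.trans (le_trans ?_ hk.le)
  rw [uniformOn_apply_finset, Finset.inter_eq_right.2 Finset.sdiff_subset,
    Finset.card_sdiff_of_subset (box_mono (Nat.le_add_right N M)), card_box, card_box]
  rcases Nat.eq_zero_or_pos k with h0 | h0
  · simp [h0]
  rw [ENNReal.div_le_iff (by positivity) (ENNReal.natCast_ne_top _), ← ENNReal.div_eq_inv_mul,
    ENNReal.le_div_iff_mul_le (Or.inl (by positivity)) (Or.inl (ENNReal.natCast_ne_top _))]
  have : ((2 * (N + M) + 1) * 2 - (2 * N + 1) * 2) * k ≤ (2 * (N + M) + 1) * 2 := by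
    have h2 : (2 * (N + M) + 1) * 2 - (2 * N + 1) * 2 = 4 * M := by omega
    rw [h2, hN]
    nlinarith
  exact_mod_cast this

lemma exists_compact (μ : Measure (ℕ → Dih)) [IsProbabilityMeasure μ] {U : Set (ℕ → Dih)}
    (hU : MeasurableSet U) (h : 0 < μ U) : ∃ K ⊆ U, IsCompact K ∧ 0 < μ K :=
  hU.exists_lt_isCompact_of_ne_top (measure_ne_top _ _) h

theorem amenable : AmenableAtOne (ℕ → Dih) := by
  intro μ hμ h1
  have hK : ∀ n, ∃ K ⊆ {x : ℕ → Dih | ∀ i < n, x i = 1}, IsCompact K ∧ 0 < μ n K := by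
    intro n
    have hopen : IsOpen {x : ℕ → Dih | ∀ i < n, x i = 1} := by
      have : {x : ℕ → Dih | ∀ i < n, x i = 1} = Set.pi (Set.Iio n) fun _ => {1} := by
        ext x; simp
      rw [this]
      exact isOpen_set_pi (Set.finite_Iio n) fun _ _ => isOpen_discrete _
    exact exists_compact (μ n) hopen.measurableSet
      ((Measure.mem_support_iff_forall _).1 (h1 n) _ (hopen.mem_nhds fun _ _ => rfl))
  choose K hKU hKc hKp using hK
  have hFfin : ∀ i : ℕ, (⋃ n ∈ Set.Iic i, (fun x : ℕ → Dih => x i) '' K n).Finite := fun i =>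
    (Set.finite_Iic i).biUnion fun n _ => ((hKc n).image (continuous_apply i)).finite_of_discrete
  have hfol := fun i : ℕ => folner _ (hFfin i) ((2 : ℝ≥0∞)⁻¹ ^ i)
    (ENNReal.pow_pos (by simp) i)
  choose lam hlam hφ using hfol
  set ν : Measure (ℕ → Dih) := Measure.infinitePi lam with hν
  set δ : ℕ → ℝ≥0∞ := fun n => ∑' k, (2 : ℝ≥0∞)⁻¹ ^ (k + n) with hδ
  have hδ0 : Tendsto δ atTop (𝓝 0) :=
    ENNReal.tendsto_sum_nat_add (fun i => (2 : ℝ≥0∞)⁻¹ ^ i) (by simp)
  have key : ∀ n, ∀ y ∈ K n, ∀ X : Set (ℕ → Dih), MeasurableSet X →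
      ν {x | x * y ∈ X} ≤ ν X + δ n ∧ ν X ≤ ν {x | x * y ∈ X} + δ n := by
    intro n y hy X hX
    have hex : ∀ i, ∃ φ : Dih → Dih, (lam i).map φ = lam i ∧
        (i < n → ∀ x, φ x = x * y i) ∧ (n ≤ i → lam i {x | φ x ≠ x * y i} ≤ 2⁻¹ ^ i) := by
      intro i
      by_cases hi : i < n
      · refine ⟨id, Measure.map_id, fun _ x => ?_, fun h => absurd hi (by omega)⟩
        rw [hKU n hy i hi, mul_one, id]
      · obtain ⟨φ, h1, h2⟩ := hφ i (y i)
          (Set.mem_biUnion (show n ∈ Set.Iic i from not_lt.1 hi) ⟨y, hy, rfl⟩)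
        exact ⟨φ, h1, fun h => absurd h hi, fun _ => h2⟩
    choose φ hφ1 hφ2 hφ3 using hex
    have hmeas : Measurable fun (x : ℕ → Dih) i => φ i (x i) :=
      measurable_pi_lambda _ fun i => (Measurable.of_discrete).comp (measurable_pi_apply i)
    have hmap : ν.map (fun x i => φ i (x i)) = ν := by
      rw [hν, Measure.infinitePi_map_pi _ fun i => Measurable.of_discrete]
      simp only [hφ1]
    have hX' : ν X = ν {x | (fun i => φ i (x i)) ∈ X} := by
      conv_lhs => rw [← hmap]
      rw [Measure.map_apply hmeas hX]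
      rfl
    set E : Set (ℕ → Dih) := ⋃ k, {x | φ (k + n) (x (k + n)) ≠ x (k + n) * y (k + n)} with hE
    have hEδ : ν E ≤ δ n := by
      refine (measure_iUnion_le _).trans (ENNReal.tsum_le_tsum fun k => ?_)
      have h2 : ν {x | φ (k + n) (x (k + n)) ≠ x (k + n) * y (k + n)} =
          lam (k + n) {x | φ (k + n) x ≠ x * y (k + n)} := by
        rw [← Measure.infinitePi_map_eval lam (k + n),
          Measure.map_apply (measurable_pi_apply _) MeasurableSet.of_discrete]
        rfl
      rw [h2]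
      exact hφ3 _ (Nat.le_add_left n k)
    have hoff : ∀ x, x ∉ E → (fun i => φ i (x i)) = x * y := by
      intro x hx
      funext i
      by_cases hi : i < n
      · exact hφ2 i hi _
      · obtain ⟨k, rfl⟩ : ∃ k, i = k + n := ⟨i - n, by omega⟩
        by_contra hne
        exact hx (Set.mem_iUnion.2 ⟨k, hne⟩)
    constructor
    · rw [hX']
      refine le_trans (measure_mono (t := {x | (fun i => φ i (x i)) ∈ X} ∪ E) ?_)
        ((measure_union_le _ _).trans (add_le_add le_rfl hEδ))
      intro x hx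
      by_cases hxE : x ∈ E
      · exact Or.inr hxE
      · left
        change (fun i => φ i (x i)) ∈ X
        rw [hoff x hxE]
        exact hx
    · rw [hX']
      refine le_trans (measure_mono (t := {x | x * y ∈ X} ∪ E) ?_)
        ((measure_union_le _ _).trans (add_le_add le_rfl hEδ))
      intro x hx
      by_cases hxE : x ∈ E
      · exact Or.inr hxE
      · left
        change x * y ∈ X
        rw [← hoff x hxE]
        exact hx
  have hprob : ∀ n, IsProbabilityMeasure (cond (μ n) (K n)) := fun n =>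
    cond_isProbabilityMeasure (hKp n).ne'
  refine ⟨fun n => cond (μ n) (K n), ν, hprob, inferInstance,
    fun n => cond_absolutelyContinuous, fun X hXc => ?_⟩
  have hX : MeasurableSet X := hXc.isClosed.measurableSet
  have hm : MeasurableSet {p : (ℕ → Dih) × (ℕ → Dih) | p.1 * p.2 ∈ X} :=
    (measurable_fst.mul measurable_snd) hX
  have hae : ∀ n, ∀ᵐ y ∂(cond (μ n) (K n)), y ∈ K n := fun n =>
    ae_cond_mem (hKc n).isClosed.measurableSet
  have hup : ∀ n, (ν.prod (cond (μ n) (K n))) {p | p.1 * p.2 ∈ X} ≤ ν X + δ n := by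
    intro n
    rw [Measure.prod_apply_symm hm]
    refine le_trans (lintegral_mono_ae (g := fun _ => ν X + δ n) ?_) (by simp)
    filter_upwards [hae n] with y hy
    exact (key n y hy X hX).1
  have hlow : ∀ n, ν X - δ n ≤ (ν.prod (cond (μ n) (K n))) {p | p.1 * p.2 ∈ X} := by
    intro n
    rw [Measure.prod_apply_symm hm]
    refine le_trans (by simp) (lintegral_mono_ae (f := fun _ => ν X - δ n) ?_)
    filter_upwards [hae n] with y hy
    exact tsub_le_iff_right.2 (key n y hy X hX).2
  refine tendsto_of_tendsto_of_tendsto_of_le_of_le ?_ ?_ hlow hup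
  · have := ENNReal.Tendsto.sub (tendsto_const_nhds (x := ν X)) hδ0 (Or.inr (by simp))
    simpa using this
  · have := (tendsto_const_nhds (x := ν X)).add hδ0
    simpa using this

/-- the closed set of sequences with all translation parts positive -/
def Bset : Set (ℕ → Dih) := Set.pi Set.univ fun _ => {x : Dih | 0 < x.a}

theorem right_null : RightHaarNull Bset := by
  refine ⟨Bset, MeasurableSet.univ_pi fun _ => MeasurableSet.of_discrete, subset_rfl, ?_⟩
  let s : Dih := ⟨0, -1⟩
  let E : Finset Dih := {1, s}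
  have hE : IsProbabilityMeasure (uniformOn (E : Set Dih)) :=
    isProbabilityMeasure_uniformOn (Finset.finite_toSet _) ⟨1, by simp [E]⟩
  have hs : (1 : Dih) ≠ s := fun h => by
    have := congrArg Dih.u h
    simp [s] at this
  have hcard : E.card = 2 := Finset.card_pair hs
  refine ⟨Measure.infinitePi fun _ => uniformOn (E : Set Dih), inferInstance, fun g => ?_⟩
  have hone : ∀ h : Dih, uniformOn (E : Set Dih) {x : Dih | 0 < (x * h).a} ≤ 2⁻¹ := by
    intro h
    have h1 : ∃ e : Dih, (E : Set Dih) ∩ {x : Dih | 0 < (x * h).a} ⊆ ({e} : Finset Dih) := by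
      by_cases h0 : 0 < h.a
      · refine ⟨1, ?_⟩
        rintro x ⟨hx, hx'⟩
        simp only [E, Finset.coe_insert, Finset.coe_singleton, Set.mem_insert_iff,
          Set.mem_singleton_iff] at hx
        rcases hx with rfl | rfl
        · simp
        · simp [s] at hx'
          omega
      · refine ⟨s, ?_⟩
        rintro x ⟨hx, hx'⟩
        simp only [E, Finset.coe_insert, Finset.coe_singleton, Set.mem_insert_iff,
          Set.mem_singleton_iff] at hx
        rcases hx with rfl | rfl
        · simp at hx'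
          omega
        · simp
    obtain ⟨e, he⟩ := h1
    rw [← uniformOn_inter_self (Finset.finite_toSet _)]
    refine (measure_mono he).trans ?_
    rw [uniformOn_apply_finset, hcard]
    have h2 : (E ∩ {e}).card ≤ 1 :=
      (Finset.card_le_card Finset.inter_subset_right).trans (by simp)
    calc ((E ∩ {e}).card : ℝ≥0∞) / ((2 : ℕ) : ℝ≥0∞) ≤ 1 / ((2 : ℕ) : ℝ≥0∞) :=
          ENNReal.div_le_div_right (by exact_mod_cast h2) _
      _ = 2⁻¹ := by simp
  have hle : ∀ n : ℕ, (Measure.infinitePi fun _ : ℕ => uniformOn (E : Set Dih))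
      ((fun x => x * g) '' Bset) ≤ 2⁻¹ ^ n := by
    intro n
    have hsub : (fun x => x * g) '' Bset ⊆
        Set.pi (Finset.range n : Set ℕ) fun i => {x : Dih | 0 < (x * (g i)⁻¹).a} := by
      rintro _ ⟨x, hx, rfl⟩ i _
      have := hx i (Set.mem_univ i)
      simpa only [Set.mem_ofPred_eq, Pi.mul_apply, mul_inv_cancel_right] using this
    refine (measure_mono hsub).trans ?_
    rw [Measure.infinitePi_pi _ fun _ _ => MeasurableSet.of_discrete]
    refine (Finset.prod_le_prod' fun i _ => hone (g i)⁻¹).trans ?_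
    simp
  have ht : Tendsto (fun n : ℕ => (2 : ℝ≥0∞)⁻¹ ^ n) atTop (𝓝 0) :=
    ENNReal.tendsto_pow_atTop_nhds_zero_of_lt_one (by simp)
  exact le_antisymm (ge_of_tendsto' ht hle) bot_le

theorem not_left_null : ¬ LeftHaarNull Bset := by
  rintro ⟨B, -, hB, μ, hμ, h0⟩
  obtain ⟨K, -, hKc, hKp⟩ := exists_compact μ MeasurableSet.univ (by simp)
  have hb : ∀ i : ℕ, ∃ M : ℤ, ∀ x ∈ K, M < (x i).a := by
    intro i
    have hf : ((fun x : ℕ → Dih => x i) '' K).Finite :=
      (hKc.image (continuous_apply i)).finite_of_discrete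
    obtain ⟨M, hM⟩ := (hf.image Dih.a).bddBelow
    refine ⟨M - 1, fun x hx => ?_⟩
    have := hM ⟨x i, ⟨x, hx, rfl⟩, rfl⟩
    omega
  choose M hM using hb
  let g : ℕ → Dih := fun i => ⟨M i, 1⟩
  have hsub : K ⊆ (fun x => g * x) '' B := by
    intro x hx
    refine ⟨fun i => ⟨(x i).a - M i, (x i).u⟩, hB fun i _ => ?_, ?_⟩
    · have := hM i x hx
      change 0 < (x i).a - M i
      omega
    · funext i
      apply Dih.ext <;> simp [g]
  exact hKp.ne' (measure_mono_null hsub (h0 g))

end Pool.Agent.H855Z.Haar
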