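import Mathlib

open Cardinal

universe u v w

namespace Pool.Agent.H855Z.WExt

/-- Boolean `m`-algebra: every family of at most `m` elements has a join and a meet. -/
def IsMAlgebra (m : Cardinal.{u}) (A : Type v) [BooleanAlgebra A] : Prop :=
  ∀ (T : Type u), Cardinal.mk T ≤ m → ∀ a : T → A,
    (∃ x, IsLUB (Set.range a) x) ∧ (∃ x, IsGLB (Set.range a) x)

/-- The Boolean homomorphism `h` preserves joins and meets of families of at most `m` elements. -/
def IsMHom (m : Cardinal.{u}) {A : Type v} {B : Type w} [BooleanAlgebra A] [BooleanAlgebra B]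
    (h : BoundedLatticeHom A B) : Prop :=
  ∀ (T : Type u), Cardinal.mk T ≤ m → ∀ (a : T → A) (x : A),
    (IsLUB (Set.range a) x → IsLUB (Set.range fun t => h (a t)) (h x)) ∧
    (IsGLB (Set.range a) x → IsGLB (Set.range fun t => h (a t)) (h x))

/-- The subalgebra `B` of `A` is closed under joins and meets, taken in `A`, of families of at
most `m` elements. -/
def IsMClosed (m : Cardinal.{u}) {A : Type v} [BooleanAlgebra A] (B : BooleanSubalgebra A) :
    Prop :=
  ∀ (T : Type u), Cardinal.mk T ≤ m → ∀ a : T → A, (∀ t, a t ∈ B) → ∀ x : A,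
    (IsLUB (Set.range a) x → x ∈ B) ∧ (IsGLB (Set.range a) x → x ∈ B)

/-- The subalgebra `A₀` `m`-generates `A`: the only `m`-closed subalgebra containing it is `A`. -/
def MGenerates (m : Cardinal.{u}) {A : Type v} [BooleanAlgebra A] (A₀ : BooleanSubalgebra A) :
    Prop :=
  ∀ B : BooleanSubalgebra A, A₀ ≤ B → IsMClosed m B → B = ⊤

/-- Condition (a'): a family of at most `m` elements of `A₀` with meet `0` in `A` has images with
meet `0` in `A'`. -/
def CondA' (m : Cardinal.{u}) {A : Type v} {A' : Type w} [BooleanAlgebra A] [BooleanAlgebra A']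
    (A₀ : BooleanSubalgebra A) (f : BoundedLatticeHom A₀ A') : Prop :=
  ∀ (T : Type u), Cardinal.mk T ≤ m → ∀ a : T → A₀,
    IsGLB (Set.range fun t => (a t : A)) ⊥ → IsGLB (Set.range fun t => f (a t)) ⊥

/-- The weak `m`-extension property of `A'` (test algebras `A` in the universe of `A'`). -/
def WeakExtension (m : Cardinal.{u}) (A' : Type v) [BooleanAlgebra A'] : Prop :=
  ∀ (A : Type v) [BooleanAlgebra A], IsMAlgebra m A →
    ∀ A₀ : BooleanSubalgebra A, MGenerates m A₀ →
      ∀ f : BoundedLatticeHom A₀ A', CondA' m A₀ f →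
        ∃ h : BoundedLatticeHom A A', IsMHom m h ∧ ∀ a : A₀, h a = f a

/-- Weak `m`-distributivity: if `⋁_s a t s = 1` for each `t`, then the elements
`A_Φ = ⋀_t ⋁_{s ∈ Φ t} a t s` (`Φ t` finite and non-empty) have join `1`. -/
def WeaklyDistributive (m : Cardinal.{u}) (A' : Type v) [BooleanAlgebra A'] : Prop :=
  ∀ (T S : Type u), Cardinal.mk T ≤ m → Cardinal.mk S ≤ m → ∀ a : T → S → A',
    (∀ t, IsLUB (Set.range (a t)) ⊤) →
    IsLUB {x : A' | ∃ Φ : T → Finset S, (∀ t, (Φ t).Nonempty) ∧
      IsGLB (Set.range fun t => (Φ t).sup (a t)) x} ⊤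

end Pool.Agent.H855Z.WExt
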