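import Pool.Agent.H855Z.WExtDefs

open Cardinal

universe u v

namespace Pool.Agent.H855Z.WExt

section
variable {A' : Type v} [BooleanAlgebra A'] {T S : Type u}

/-- points: maximal ideals containing `b` or a whole row `a t` -/
def Pt (a : T → S → A') (b : A') : Type v :=
  {I : Order.Ideal A' // I.IsMaximal ∧ (b ∈ I ∨ ∃ t, ∀ s, a t s ∈ I)}

/-- Stone map restricted to the points -/
def emb (a : T → S → A') (b : A') : BoundedLatticeHom A' (Set (Pt a b)) where
  toFun c := {I | c ∉ I.1}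
  map_sup' c d := by
    ext I
    simp only [Set.mem_ofPred_eq, Set.sup_eq_union, Set.mem_union, Order.Ideal.sup_mem_iff]
    tauto
  map_inf' c d := by
    ext I
    have := I.2.1
    simp only [Set.mem_ofPred_eq, Set.inf_eq_inter, Set.mem_inter_iff]
    constructor
    · intro h
      exact ⟨fun hc => h (I.1.lower inf_le_left hc), fun hd => h (I.1.lower inf_le_right hd)⟩
    · rintro ⟨hc, hd⟩ h
      rcases (Order.Ideal.IsMaximal.isPrime (I := I.1)).mem_or_mem h with h | h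
      · exact hc h
      · exact hd h
  map_top' := by
    ext I
    have := I.2.1
    simp only [Set.mem_ofPred_eq, Set.top_eq_univ, Set.mem_univ, iff_true]
    exact I.2.1.toIsProper.top_notMem
  map_bot' := by
    ext I
    simp only [Set.mem_ofPred_eq, Set.bot_eq_empty, Set.mem_empty_iff_false, iff_false, not_not]
    exact I.1.bot_mem

lemma mem_emb {a : T → S → A'} {b c : A'} {I : Pt a b} : I ∈ emb a b c ↔ c ∉ I.1 := Iff.rfl

/-- ideal generated by `d` and the family `g` -/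
def genIdeal (d : A') (g : S → A') : Order.Ideal A' where
  carrier := {y | ∃ F : Finset S, y ≤ d ⊔ F.sup g}
  lower' := by
    rintro x y hxy ⟨F, hF⟩
    exact ⟨F, hxy.trans hF⟩
  nonempty' := ⟨⊥, ∅, bot_le⟩
  directed' := by
    classical
    rintro x ⟨F, hF⟩ y ⟨G, hG⟩
    refine ⟨x ⊔ y, ⟨F ∪ G, ?_⟩, le_sup_left, le_sup_right⟩
    rw [Finset.sup_union]
    exact sup_le (hF.trans (sup_le_sup_left le_sup_left _))
      (hG.trans (sup_le_sup_left le_sup_right _))

lemma mem_genIdeal {d y : A'} {g : S → A'} :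
    y ∈ genIdeal d g ↔ ∃ F : Finset S, y ≤ d ⊔ F.sup g := Iff.rfl

lemma le_of_top_le {c d : A'} (h : ⊤ ≤ cᶜ ⊔ d) : c ≤ d := by
  have h1 : c ⊓ ⊤ ≤ c ⊓ (cᶜ ⊔ d) := inf_le_inf_left c h
  rw [inf_top_eq, inf_sup_left, inf_compl_eq_bot, bot_sup_eq] at h1
  exact h1.trans inf_le_right

lemma eq_bot_of_emb {m : Cardinal.{u}} (hA : IsMAlgebra m A') (hT : Cardinal.mk T ≤ m)
    {a : T → S → A'} {w : A'}
    (hw : w ∈ upperBounds {x : A' | ∃ Φ : T → Finset S, (∀ t, (Φ t).Nonempty) ∧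
      IsGLB (Set.range fun t => (Φ t).sup (a t)) x})
    {c : A'} (hc : emb a wᶜ c = ∅) : c = ⊥ := by
  have hall : ∀ I : Order.Ideal A', I.IsMaximal → (wᶜ ∈ I ∨ ∃ t, ∀ s, a t s ∈ I) → cᶜ ∉ I := by
    intro I hI h hcc
    have h1 : (⟨I, hI, h⟩ : Pt a wᶜ) ∉ emb a wᶜ c := by rw [hc]; exact Set.notMem_empty _
    exact h1 (hI.toIsProper.notMem_of_compl_mem hcc)
  have h1 : c ≤ wᶜ := by
    by_contra hn
    have hp : (Order.Ideal.principal (cᶜ ⊔ wᶜ)).IsProper := by
      rw [Order.Ideal.isProper_iff_top_notMem]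
      intro h
      exact hn (le_of_top_le h)
    obtain ⟨I, hle, hI⟩ := hp.exists_le_maximal
    exact hall I hI (Or.inl (hle (show wᶜ ≤ cᶜ ⊔ wᶜ from le_sup_right)))
      (hle (show cᶜ ≤ cᶜ ⊔ wᶜ from le_sup_left))
  have h2 : ∀ t, ∃ F : Finset S, c ≤ F.sup (a t) := by
    intro t
    by_contra hn
    have hp : (genIdeal cᶜ (a t)).IsProper := by
      rw [Order.Ideal.isProper_iff_top_notMem]
      rintro ⟨F, hF⟩
      exact hn ⟨F, le_of_top_le hF⟩
    obtain ⟨I, hle, hI⟩ := hp.exists_le_maximal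
    refine hall I hI (Or.inr ⟨t, fun s => hle ?_⟩) (hle ?_)
    · exact ⟨{s}, by simp⟩
    · exact ⟨∅, le_sup_left⟩
  choose Φ hΦ using h2
  by_contra hne
  have h3 : ∀ t, (Φ t).Nonempty := by
    intro t
    rw [Finset.nonempty_iff_ne_empty]
    intro he
    have := hΦ t
    rw [he, Finset.sup_empty, le_bot_iff] at this
    exact hne this
  obtain ⟨x, hx⟩ := (hA T hT (fun t => (Φ t).sup (a t))).2
  have h4 : x ≤ w := hw ⟨Φ, h3, hx⟩
  have h5 : c ≤ x := hx.2 (by rintro _ ⟨t, rfl⟩; exact hΦ t)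
  apply hne
  have : c ≤ w ⊓ wᶜ := le_inf (h5.trans h4) h1
  simpa using this

end

section field
variable {X : Type v} (m : Cardinal.{u}) (G : Set (Set X))

/-- closed under unions and intersections of at most `m` sets -/
def SetClosed (B : BooleanSubalgebra (Set X)) : Prop :=
  ∀ (T : Type u), Cardinal.mk T ≤ m → ∀ a : T → Set X, (∀ t, a t ∈ B) →
    (⋃ t, a t) ∈ B ∧ (⋂ t, a t) ∈ B

/-- the `m`-field generated by `G` -/
def mField : BooleanSubalgebra (Set X) := sInf {B | G ⊆ B ∧ SetClosed m B}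

lemma subset_mField {Y : Set X} (h : Y ∈ G) : Y ∈ mField m G := by
  rw [mField, BooleanSubalgebra.mem_sInf]
  exact fun B hB => hB.1 h

lemma setClosed_mField : SetClosed m (mField m G) := by
  intro T hT a ha
  simp only [mField, BooleanSubalgebra.mem_sInf] at ha ⊢
  exact ⟨fun B hB => (hB.2 T hT a fun t => ha t B hB).1,
    fun B hB => (hB.2 T hT a fun t => ha t B hB).2⟩

variable {m G}

lemma isLUB_union {T : Type u} (a : T → mField m G) (h : (⋃ t, (a t : Set X)) ∈ mField m G) :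
    IsLUB (Set.range a) ⟨_, h⟩ := by
  constructor
  · rintro _ ⟨t, rfl⟩
    exact Set.subset_iUnion (fun t => (a t : Set X)) t
  · intro y hy
    exact Set.iUnion_subset fun t => hy ⟨t, rfl⟩

lemma isGLB_inter {T : Type u} (a : T → mField m G) (h : (⋂ t, (a t : Set X)) ∈ mField m G) :
    IsGLB (Set.range a) ⟨_, h⟩ := by
  constructor
  · rintro _ ⟨t, rfl⟩
    exact Set.iInter_subset (fun t => (a t : Set X)) t
  · intro y hy
    exact Set.subset_iInter fun t => hy ⟨t, rfl⟩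

lemma isMAlgebra_mField : IsMAlgebra m (mField m G) := by
  intro T hT a
  have h := setClosed_mField m G T hT (fun t => (a t : Set X)) fun t => (a t).2
  exact ⟨⟨_, isLUB_union a h.1⟩, ⟨_, isGLB_inter a h.2⟩⟩

lemma mGenerates_of (A₀ : BooleanSubalgebra (mField m G))
    (hA₀ : ∀ y : mField m G, (y : Set X) ∈ G → y ∈ A₀) : MGenerates m A₀ := by
  intro B hB hcl
  have h1 : mField m G ≤ B.map (mField m G).subtype := by
    refine sInf_le ⟨?_, ?_⟩
    · intro Y hY
      exact ⟨⟨Y, subset_mField m G hY⟩, hB (hA₀ _ hY), rfl⟩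
    · intro T hT a ha
      choose a' ha' he using ha
      have he' : ∀ t, (a' t : Set X) = a t := he
      have h := setClosed_mField m G T hT (fun t => (a' t : Set X)) fun t => (a' t).2
      have h2 := hcl T hT a' ha'
      refine ⟨⟨_, (h2 _).1 (isLUB_union a' h.1), ?_⟩, ⟨_, (h2 _).2 (isGLB_inter a' h.2), ?_⟩⟩
      · simp [he']
      · simp [he']
  rw [eq_top_iff]
  intro y _
  obtain ⟨z, hz, hzy⟩ := h1 y.2
  have : z = y := Subtype.ext hzy
  exact this ▸ hz

end field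

theorem weaklyDistributive_of_weakExtension (m : Cardinal.{u}) (A' : Type v) [BooleanAlgebra A']
    (hA : IsMAlgebra m A') (hE : WeakExtension m A') : WeaklyDistributive m A' := by
  intro T S hT hS a ha
  refine ⟨fun _ _ => le_top, fun w hw => ?_⟩
  set e := emb a wᶜ with he
  have hk : ∀ c, e c = ∅ → c = ⊥ := fun c hc => eq_bot_of_emb hA hT hw hc
  have hmono : ∀ c d, e c ⊆ e d → c ≤ d := by
    intro c d h
    have h1 : e (c \ d) = ∅ := by
      rw [map_sdiff']
      exact Set.sdiff_eq_empty.2 h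
    exact sdiff_eq_bot_iff.1 (hk _ h1)
  have hinj : Function.Injective e := fun c d h => le_antisymm (hmono _ _ h.le) (hmono _ _ h.ge)
  let G : Set (Set (Pt a wᶜ)) := Set.range e
  let A := mField m G
  let A₀ : BooleanSubalgebra A := ((⊤ : BooleanSubalgebra A').map e).comap A.subtype
  have hA₀ : ∀ y : A, y ∈ A₀ ↔ ∃ c, e c = y := by
    intro y
    simp [A₀]
  have hex : ∀ y : A₀, ∃ c, e c = ((y : A) : Set (Pt a wᶜ)) := fun y => (hA₀ y).1 y.2
  choose f0 hf0 using hex
  let f : BoundedLatticeHom A₀ A' :=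
    { toFun := f0
      map_sup' := fun y z => hinj (by rw [map_sup, hf0, hf0, hf0]; rfl)
      map_inf' := fun y z => hinj (by rw [map_inf, hf0, hf0, hf0]; rfl)
      map_top' := hinj (by rw [map_top, hf0]; rfl)
      map_bot' := hinj (by rw [map_bot, hf0]; rfl) }
  have hf : ∀ y : A₀, e (f y) = ((y : A) : Set (Pt a wᶜ)) := hf0
  have hcond : CondA' m A₀ f := by
    intro T' hT' c hc
    refine ⟨fun _ _ => bot_le, fun d hd => ?_⟩
    rw [le_bot_iff]
    apply hk
    have h1 : (⟨e d, subset_mField m G ⟨d, rfl⟩⟩ : A) ≤ ⊥ := by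
      apply hc.2
      rintro _ ⟨t, rfl⟩
      have h2 : d ≤ f (c t) := hd ⟨t, rfl⟩
      have h3 : e d ≤ e (f (c t)) := OrderHomClass.mono e h2
      rw [hf] at h3
      exact h3
    exact Set.subset_empty_iff.1 h1
  obtain ⟨h, hh, hhf⟩ := hE A isMAlgebra_mField A₀
    (mGenerates_of A₀ fun y hy => (hA₀ y).2 hy) f hcond
  let e' : A' → A := fun c => ⟨e c, subset_mField m G ⟨c, rfl⟩⟩
  have hhe : ∀ c, h (e' c) = c := by
    intro c
    have := hhf ⟨e' c, (hA₀ _).2 ⟨c, rfl⟩⟩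
    rw [this]
    apply hinj
    rw [hf]
  have hU : ∀ t, (⋃ s, (e' (a t s) : Set (Pt a wᶜ))) ∈ A := fun t =>
    (setClosed_mField m G S hS _ fun s => (e' (a t s)).2).1
  let U : T → A := fun t => ⟨_, hU t⟩
  have hUtop : ∀ t, h (U t) = ⊤ := by
    intro t
    have h1 := (hh S hS (fun s => e' (a t s)) (U t)).1 (isLUB_union _ (hU t))
    simp only [hhe] at h1
    exact h1.unique (ha t)
  have hW : (⋂ t, (U t : Set (Pt a wᶜ))) ∈ A :=
    (setClosed_mField m G T hT _ fun t => (U t).2).2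
  have hWtop : h ⟨_, hW⟩ = ⊤ := by
    have h1 := (hh T hT U ⟨_, hW⟩).2 (isGLB_inter _ hW)
    rw [eq_top_iff]
    apply h1.2
    rintro _ ⟨t, rfl⟩
    exact (hUtop t).ge
  have hdis : (⟨_, hW⟩ : A) ⊓ e' wᶜ = ⊥ := by
    apply Subtype.ext
    change (⋂ t, (U t : Set (Pt a wᶜ))) ∩ e wᶜ = ∅
    rw [Set.eq_empty_iff_forall_notMem]
    rintro I ⟨h1, h2⟩
    rcases I.2.2 with h3 | ⟨t, h3⟩
    · exact h2 h3
    · obtain ⟨s, hs⟩ := Set.mem_iUnion.1 (Set.mem_iInter.1 h1 t)
      exact hs (h3 s)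
  have h1 := congrArg h hdis
  rw [map_inf, hWtop, hhe, map_bot, top_inf_eq, compl_eq_bot] at h1
  exact h1.ge

end Pool.Agent.H855Z.WExt
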